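import Mathlib
import Pool.Agent.H21.Tr1

namespace Pool.Agent.Results.MP_e51b07_al.No

/-- The block diagonal matrix whose `i`-th block is `t i × t i` with all entries `1 / t i`. -/
def blockT {s : ℕ} (t : Fin s → ℕ) : Matrix (Σ i, Fin (t i)) (Σ i, Fin (t i)) ℚ :=
  Matrix.of fun a b => if a.1 = b.1 then 1 / (t a.1 : ℚ) else 0

/-- The common transversal probability: the number of sets that are left transversals of `H` and
right transversals of `K`, divided by `|H|` to the power `(G : H)`. -/
noncomputable def P {G : Type} [Group G] (H K : Subgroup G) : ℚ :=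
  (Nat.card {T : Set G // Subgroup.IsComplement T (H : Set G) ∧
    Subgroup.IsComplement (K : Set G) T} : ℚ) / (Nat.card H : ℚ) ^ H.index

open Pool.Agent.H21.Tr MulAction in
theorem result : ∃ (s : ℕ) (t : Fin s → ℕ), 1 ≤ s ∧ (∀ i, 1 ≤ t i) ∧ (∃ i, t i = 1) ∧
    ∀ (G : Type) [Group G] [Finite G] (H K : Subgroup G), Nat.card H = Nat.card K →
      P H K ≠ (blockT t).permanent := by
  classical
  refine ⟨3, ![1, 2, 5], by omega, by decide, ⟨0, rfl⟩, fun G _ _ H K hHK hP => ?_⟩
  have hper : (blockT ![1, 2, 5]).permanent = 12 / 625 := by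
    have h := sum_compat (R := ℚ) (fun a : Σ i, Fin (![1, 2, 5] i) => a.1) (fun a => a.1)
      (fun a => 1 / (![1, 2, 5] a.1 : ℕ)) (Equiv.refl _) fun _ => rfl
    have h1 : (∏ d : Fin 3, (Fintype.card {c : Σ i, Fin (![1, 2, 5] i) // c.1 = d}).factorial) =
        240 := by decide +kernel
    rw [h1, Fintype.prod_sigma] at h
    rw [← Matrix.permanent_transpose]
    refine Eq.trans ?_ (h.trans ?_)
    · rfl
    · simp [Fin.prod_univ_succ]; norm_num
  rw [hper] at hP
  haveI := Fintype.ofFinite G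
  let D := orbitRel.Quotient K (G ⧸ H)
  haveI : Fintype D := Fintype.ofFinite _
  haveI : Fintype (G ⧸ H) := Fintype.ofFinite _
  haveI : Fintype (Quotient (QuotientGroup.rightRel K)) := Fintype.ofFinite _
  let a : G ⧸ H → D := Quotient.mk''
  have ha : ∀ x y, a x = a y ↔ x ∈ orbit K y := fun x y => Quotient.eq''
  let b : Quotient (QuotientGroup.rightRel K) → D := Quotient.lift (fun g => a g) fun x y h =>
    ((ha _ _).2 ⟨⟨y * x⁻¹, QuotientGroup.rightRel_apply.1 h⟩,
      show (((y * x⁻¹) * x : G) : G ⧸ H) = y by simp⟩).symm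
  let t : D → ℕ := fun d => Fintype.card {c // a c = d}
  have ht : ∀ x, t (a x) = (orbit K x).ncard := fun x => by
    simp only [t, ha]
    rw [← Nat.card_eq_fintype_card]; rfl
  let w : G ⧸ H → ℕ := fun c => Nat.card (K ⊓ stabilizer G c : Subgroup G)
  have hw : ∀ c, t (a c) * w c = Nat.card K := fun c => ht c ▸ orb_stab K c
  have hN : ∀ c y, Nat.card {g : G // (g : G ⧸ H) = c ∧
      (Quotient.mk'' g : Quotient (QuotientGroup.rightRel K)) = y} =
        if a c = b y then w c else 0 := by
    intro c y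
    induction y using Quotient.inductionOn' with
    | h x =>
    split_ifs with h
    · obtain ⟨k, rfl⟩ := (ha _ _).1 (show a c = a x from h)
      refine Nat.card_congr
        { toFun := fun g => ⟨g.1 * (k * x)⁻¹, ?_, ?_⟩
          invFun := fun u => ⟨u.1 * (k * x), u.2.2, ?_⟩
          left_inv := fun g => Subtype.ext (inv_mul_cancel_right _ _)
          right_inv := fun u => Subtype.ext (mul_inv_cancel_right _ _) }
      · have := QuotientGroup.rightRel_apply.1 (Quotient.eq''.1 g.2.2)
        simpa [mul_assoc] using K.inv_mem (K.mul_mem k.2 this)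
      · exact (show (((g.1 * (k * x)⁻¹) * (k * x) : G) : G ⧸ H) = g.1 by rw [inv_mul_cancel_right]).trans g.2.1
      · refine Quotient.eq''.2 (QuotientGroup.rightRel_apply.2 ?_)
        simpa [mul_assoc] using K.inv_mem (K.mul_mem u.2.1 k.2)
    · rw [Nat.card_eq_zero]
      exact Or.inl ⟨fun g => h ((congrArg a g.2.1).symm.trans (congrArg b g.2.2))⟩
  have hc := count _ _ a b w hN
  simp only [P, Subgroup.isComplement_subgroup_right_iff_bijective,
    Subgroup.isComplement_subgroup_left_iff_bijective] at hP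
  have hK : (0 : ℚ) < Nat.card K := by exact_mod_cast Nat.card_pos
  have ht1 : ∀ d, 1 ≤ t d := fun d => by
    obtain ⟨x, rfl⟩ : ∃ x, a x = d := Quotient.exists_rep d
    exact Fintype.card_pos_iff.2 ⟨⟨x, rfl⟩⟩
  rcases hc with hc | hc <;> rw [hc] at hP
  · norm_num at hP
  have h1 : ∏ d, f (t d) = 12 / 625 := by
    have h2 : ∏ d, (t d : ℚ) ^ t d = ∏ c, (t (a c) : ℚ) := by
      rw [← Finset.prod_fiberwise Finset.univ a]
      refine Finset.prod_congr rfl fun d _ => ?_
      rw [Finset.prod_congr rfl fun c hc => by rw [(Finset.mem_filter.1 hc).2], Finset.prod_const,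
        ← Fintype.card_subtype]
    have h3 : (Nat.card K : ℚ) ^ H.index = (∏ c, (t (a c) : ℚ)) * ∏ c, (w c : ℚ) := by
      rw [← Finset.prod_mul_distrib]
      simp only [← Nat.cast_mul, hw, Finset.prod_const, Finset.card_univ, Subgroup.index,
        Nat.card_eq_fintype_card (α := G ⧸ H)]
    have h4 : ∏ c, (w c : ℚ) ≠ 0 := Finset.prod_ne_zero_iff.2 fun c _ => by
      exact_mod_cast (Nat.card_pos (α := (K ⊓ stabilizer G c : Subgroup G))).ne'
    rw [← hP, hHK, h3, ← h2]
    simp only [f, Finset.prod_div_distrib]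
    push_cast
    rw [mul_div_mul_right _ _ h4]
  obtain ⟨d, e, h2, h5, h6⟩ := arith t ht1 h1
  obtain ⟨c, rfl⟩ : ∃ x, a x = d := Quotient.exists_rep d
  obtain ⟨e, rfl⟩ : ∃ x, a x = e := Quotient.exists_rep e
  refine grp K (fun x => ?_) c e (ht c ▸ h2) (ht e ▸ h5) fun x h7 h8 =>
    ht x ▸ h6 _ (mt (ha _ _).1 h7) (mt (ha _ _).1 h8)
  have h9 := (stabilizer G x).index_mul_card
  rw [index_stabilizer_of_transitive, ← H.index_mul_card, hHK] at h9
  exact Nat.eq_of_mul_eq_mul_left (Nat.card_pos (α := G ⧸ H)) h9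

end Pool.Agent.Results.MP_e51b07_al.No
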